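import Mathlib

namespace Pool.Agent.Results.MP_8eede0_co.Hexagon

/-- The regular hexagon with centre `0` and apothem `6`: three strips of width `12` whose
directions make angles of 60 degrees. -/
def hex : Set ℂ :=
  {z | |z.im| ≤ 6 ∧ |(√3 * z.re - z.im) / 2| ≤ 6 ∧ |(√3 * z.re + z.im) / 2| ≤ 6}

/-- The parallelogram with an angle of 60 degrees and sides in ratio `2 : 3`. -/
def par : Set ℂ :=
  {z | 0 ≤ √3 * z.re - z.im ∧ √3 * z.re - z.im ≤ 2 ∧ 0 ≤ 2 * z.im ∧ 2 * z.im ≤ 3}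

noncomputable def X (z : ℂ) : ℝ := √3 * z.re - z.im
noncomputable def Y (z : ℂ) : ℝ := 2 * z.im
noncomputable def pt (x y : ℝ) : ℂ := ⟨√3 * (2 * x + y) / 6, y / 2⟩

theorem s3 : √3 * √3 = (3 : ℝ) := Real.mul_self_sqrt (by norm_num)

theorem X_pt (x y : ℝ) : X (pt x y) = x := by
  simp only [X, pt]; linear_combination (2 * x + y) / 6 * s3
theorem Y_pt (x y : ℝ) : Y (pt x y) = y := by
  simp only [Y, pt]; ring
theorem pt_XY (z : ℂ) : pt (X z) (Y z) = z := by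
  apply Complex.ext
  · simp only [X, Y, pt]; linear_combination z.re / 3 * s3
  · simp only [X, Y, pt]; ring

theorem dist_sq (z w : ℂ) : dist z w ^ 2 =
    ((X z - X w) ^ 2 + (X z - X w) * (Y z - Y w) + (Y z - Y w) ^ 2) / 3 := by
  rw [Complex.dist_eq, Complex.sq_norm, Complex.normSq_apply]
  simp only [X, Y, Complex.sub_re, Complex.sub_im]
  linear_combination (-(z.re - w.re) ^ 2 / 3) * s3

structure Tl where
  a : ℤ
  b : ℤ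
  c : ℤ
  d : ℤ
  p : ℤ
  q : ℤ

def Tl.ok (t : Tl) : Prop := t.a * t.a + t.a * t.c + t.c * t.c = 1 ∧
  t.b * t.b + t.b * t.d + t.d * t.d = 1 ∧
  2 * t.a * t.b + t.a * t.d + t.b * t.c + 2 * t.c * t.d = 1 ∧
  (t.a * t.d - t.b * t.c) * (t.a * t.d - t.b * t.c) = 1

instance (t : Tl) : Decidable t.ok := by unfold Tl.ok; infer_instance

noncomputable def Tl.g (t : Tl) (z : ℂ) : ℂ :=
  pt (t.a * X z + t.b * Y z + t.p) (t.c * X z + t.d * Y z + t.q)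

theorem Tl.iso (t : Tl) (h : t.ok) : Isometry t.g := by
  obtain ⟨h1, h2, h3, -⟩ := h
  have h1' : (t.a : ℝ) * t.a + t.a * t.c + t.c * t.c = 1 := by exact_mod_cast h1
  have h2' : (t.b : ℝ) * t.b + t.b * t.d + t.d * t.d = 1 := by exact_mod_cast h2
  have h3' : (2 : ℝ) * t.a * t.b + t.a * t.d + t.b * t.c + 2 * t.c * t.d = 1 := by
    exact_mod_cast h3
  refine Isometry.of_dist_eq fun z w => ?_
  rw [← sq_eq_sq₀ dist_nonneg dist_nonneg, dist_sq, dist_sq]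
  simp only [Tl.g, X_pt, Y_pt]
  linear_combination (X z - X w) ^ 2 / 3 * h1' + (Y z - Y w) ^ 2 / 3 * h2' +
    (X z - X w) * (Y z - Y w) / 3 * h3'

def Tl.S (t : Tl) (x y : ℝ) : ℝ := (t.a * t.d - t.b * t.c) * (t.d * (x - t.p) - t.b * (y - t.q))
def Tl.R (t : Tl) (x y : ℝ) : ℝ := (t.a * t.d - t.b * t.c) * (t.a * (y - t.q) - t.c * (x - t.p))
def Tl.Si (t : Tl) (x y : ℤ) : ℤ := (t.a * t.d - t.b * t.c) * (t.d * (x - t.p) - t.b * (y - t.q))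
def Tl.Ri (t : Tl) (x y : ℤ) : ℤ := (t.a * t.d - t.b * t.c) * (t.a * (y - t.q) - t.c * (x - t.p))
def Tl.has (t : Tl) (x y : ℤ) : Prop := 0 ≤ t.Si x y ∧ t.Si x y ≤ 2 ∧ 0 ≤ t.Ri x y ∧ t.Ri x y ≤ 3
instance (t : Tl) (x y : ℤ) : Decidable (t.has x y) := by unfold Tl.has; infer_instance

theorem Tl.mem (t : Tl) (h : t.ok) (z : ℂ) (h1 : 0 ≤ t.S (X z) (Y z)) (h2 : t.S (X z) (Y z) ≤ 2)
    (h3 : 0 ≤ t.R (X z) (Y z)) (h4 : t.R (X z) (Y z) ≤ 3) : z ∈ t.g '' par := by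
  have hd : ((t.a : ℝ) * t.d - t.b * t.c) * (t.a * t.d - t.b * t.c) = 1 := by
    exact_mod_cast h.2.2.2
  refine ⟨pt (t.S (X z) (Y z)) (t.R (X z) (Y z)), ?_, ?_⟩
  · change 0 ≤ X _ ∧ X _ ≤ 2 ∧ 0 ≤ Y _ ∧ Y _ ≤ 3
    rw [X_pt, Y_pt]
    exact ⟨h1, h2, h3, h4⟩
  · simp only [Tl.g, X_pt, Y_pt]
    conv_rhs => rw [← pt_XY z]
    congr 1
    · simp only [Tl.S, Tl.R]; linear_combination (X z - t.p) * hd
    · simp only [Tl.S, Tl.R]; linear_combination (Y z - t.q) * hd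

def Tl.hi (t : Tl) (m n : ℤ) : ℤ :=
  m * t.p + n * t.q + max 0 (2 * (m * t.a + n * t.c)) + max 0 (3 * (m * t.b + n * t.d))

theorem Tl.le_hi (t : Tl) (m n : ℤ) (z : ℂ) (hz : z ∈ t.g '' par) :
    m * X z + n * Y z ≤ t.hi m n := by
  obtain ⟨w, hw, rfl⟩ := hz
  have hw' : 0 ≤ X w ∧ X w ≤ 2 ∧ 0 ≤ Y w ∧ Y w ≤ 3 := hw
  obtain ⟨h1, h2, h3, h4⟩ := hw'
  simp only [Tl.g, X_pt, Y_pt, Tl.hi]
  push_cast
  have key : ∀ s k A : ℝ, 0 ≤ s → s ≤ k → s * A ≤ max 0 (k * A) := by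
    intro s k A hs hk
    rcases le_total A 0 with h | h
    · exact le_trans (mul_nonpos_of_nonneg_of_nonpos hs h) (le_max_left _ _)
    · exact le_trans (mul_le_mul_of_nonneg_right hk h) (le_max_right _ _)
  have e1 := key _ _ ((m : ℝ) * t.a + n * t.c) h1 h2
  have e2 := key _ _ ((m : ℝ) * t.b + n * t.d) h3 h4
  nlinarith

def tl : List Tl :=
  [⟨1, 1, 0, -1, -3, -2⟩, ⟨1, 1, 0, -1, -6, 1⟩, ⟨1, 1, 0, -1, -9, 4⟩, ⟨1, 1, 0, -1, -12, 7⟩, ⟨1,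
    1, 0, -1, -1, -2⟩, ⟨1, 1, 0, -1, -4, 1⟩, ⟨1, 1, 0, -1, -7, 4⟩, ⟨1, 1, 0, -1, -10, 7⟩, ⟨1, 1, 0,
    -1, 1, -2⟩, ⟨1, 1, 0, -1, -2, 1⟩, ⟨1, 1, 0, -1, -5, 4⟩, ⟨1, 1, 0, -1, -8, 7⟩, ⟨1, 1, 0, -1, 3,
    -2⟩, ⟨1, 1, 0, -1, 0, 1⟩, ⟨1, 1, 0, -1, -3, 4⟩, ⟨1, 1, 0, -1, -6, 7⟩, ⟨1, 1, 0, -1, 5, -2⟩, ⟨1,
    1, 0, -1, 2, 1⟩, ⟨1, 1, 0, -1, -1, 4⟩, ⟨1, 1, 0, -1, -4, 7⟩, ⟨1, 1, 0, -1, 7, -2⟩, ⟨1, 1, 0,
    -1, 4, 1⟩, ⟨1, 1, 0, -1, 1, 4⟩, ⟨1, 1, 0, -1, -2, 7⟩, ⟨0, 1, -1, -1, 9, 3⟩, ⟨0, 1, -1, -1, 6,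
    6⟩, ⟨0, 1, -1, -1, 3, 9⟩, ⟨0, 1, -1, -1, 0, 12⟩, ⟨-1, 0, 1, 1, 12, -5⟩, ⟨-1, 0, 1, 1, 10, -3⟩,
    ⟨-1, 0, 1, 1, 8, -1⟩, ⟨-1, 0, 1, 1, 6, 1⟩, ⟨-1, 0, 1, 1, 4, 3⟩, ⟨-1, 0, 1, 1, 2, 5⟩, ⟨0, -1,
    -1, 0, -9, 12⟩, ⟨0, -1, -1, 0, -6, 12⟩, ⟨0, -1, -1, 0, -3, 12⟩, ⟨0, -1, -1, 0, 0, 12⟩, ⟨1, 0,
    0, 1, -12, 7⟩, ⟨1, 0, 0, 1, -10, 7⟩, ⟨1, 0, 0, 1, -8, 7⟩, ⟨1, 0, 0, 1, -6, 7⟩, ⟨1, 0, 0, 1, -4,
    7⟩, ⟨1, 0, 0, 1, -2, 7⟩, ⟨0, 1, -1, -1, -3, -2⟩, ⟨0, 1, -1, -1, -6, 1⟩, ⟨0, 1, -1, -1, -9, 4⟩,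
    ⟨0, 1, -1, -1, -12, 7⟩, ⟨0, 1, -1, -1, -3, -4⟩, ⟨0, 1, -1, -1, -6, -1⟩, ⟨0, 1, -1, -1, -9, 2⟩,
    ⟨0, 1, -1, -1, -12, 5⟩, ⟨-1, 0, 1, 1, 0, -12⟩, ⟨-1, 0, 1, 1, -2, -10⟩, ⟨-1, 0, 1, 1, -4, -8⟩,
    ⟨-1, 0, 1, 1, -6, -6⟩, ⟨-1, 0, 1, 1, -8, -4⟩, ⟨-1, 0, 1, 1, -10, -2⟩, ⟨0, -1, -1, 0, 3, -5⟩,
    ⟨0, -1, -1, 0, 6, -5⟩, ⟨0, -1, -1, 0, 9, -5⟩, ⟨0, -1, -1, 0, 12, -5⟩, ⟨0, -1, -1, 0, 3, -7⟩,
    ⟨0, -1, -1, 0, 6, -7⟩, ⟨0, -1, -1, 0, 9, -7⟩, ⟨0, -1, -1, 0, 12, -7⟩, ⟨1, 0, 0, 1, 0, -12⟩, ⟨1,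
    0, 0, 1, 2, -12⟩, ⟨1, 0, 0, 1, 4, -12⟩, ⟨1, 0, 0, 1, 6, -12⟩, ⟨1, 0, 0, 1, 8, -12⟩, ⟨1, 0, 0,
    1, 10, -12⟩]

def T (i : Fin 72) : Tl := tl.getD i ⟨0, 0, 0, 0, 0, 0⟩

def dirs : List (ℤ × ℤ) := [(1, 0), (0, 1), (1, 1), (-1, 0), (0, -1), (-1, -1)]

theorem c_ok : ∀ i, (T i).ok := by decide +kernel
theorem c_in : ∀ i, ∀ u ∈ dirs, (T i).hi u.1 u.2 ≤ 12 := by decide +kernel
theorem c_sep : ∀ i j, i ≠ j → ∃ u ∈ dirs,
    (T i).hi u.1 u.2 + (T j).hi (-u.1) (-u.2) ≤ 0 ∧ 0 < u.1 * u.1 + u.2 * u.2 := by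
  decide +kernel
def inH (x y : ℤ) : Prop := -12 ≤ x ∧ x ≤ 12 ∧ -12 ≤ y ∧ y ≤ 12 ∧ -12 ≤ x + y ∧ x + y ≤ 12
instance (x y : ℤ) : Decidable (inH x y) := by unfold inH; infer_instance
theorem c_cov : ∀ x y : Fin 25, ∀ e ∈ [(1 : ℤ), -1],
    inH ((x : ℕ) - 12) ((y : ℕ) - 12) → inH ((x : ℕ) - 12 + e) ((y : ℕ) - 12) →
    inH ((x : ℕ) - 12) ((y : ℕ) - 12 + e) → ∃ t ∈ tl, t.has ((x : ℕ) - 12) ((y : ℕ) - 12) ∧
      t.has ((x : ℕ) - 12 + e) ((y : ℕ) - 12) ∧ t.has ((x : ℕ) - 12) ((y : ℕ) - 12 + e) := by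
  decide +kernel

theorem clip (x : ℝ) (h1 : -12 ≤ x) (h2 : x ≤ 12) :
    ∃ i : ℤ, -12 ≤ i ∧ i ≤ 11 ∧ (i : ℝ) ≤ x ∧ x ≤ i + 1 ∧ (x < i + 1 ∨ i = 11) := by
  rcases h2.lt_or_eq with h | h
  · refine ⟨⌊x⌋, Int.le_floor.2 (by exact_mod_cast h1), ?_, Int.floor_le x,
      (Int.lt_floor_add_one x).le, Or.inl (Int.lt_floor_add_one x)⟩
    have : ⌊x⌋ < 12 := Int.floor_lt.2 (by exact_mod_cast h)
    omega
  · exact ⟨11, by norm_num, le_rfl, by rw [h]; norm_num, by rw [h]; norm_num, Or.inr rfl⟩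

def Tri (x y : ℝ) : Prop := ∃ (i j e : ℤ) (u v : ℝ), (e = 1 ∨ e = -1) ∧ inH i j ∧ inH (i + e) j ∧
  inH i (j + e) ∧ 0 ≤ u ∧ 0 ≤ v ∧ u + v ≤ 1 ∧ x = i + e * u ∧ y = j + e * v

theorem tri0 (x y : ℝ) (h1 : -12 ≤ x) (h2 : x ≤ 12) (h3 : -12 ≤ y) (h4 : y ≤ 12)
    (h5 : -12 ≤ x + y) (h6 : x + y ≤ 0) : Tri x y := by
  obtain ⟨i, a1, a2, a3, a4, a5⟩ := clip x h1 h2
  obtain ⟨j, b1, b2, b3, b4, -⟩ := clip y h3 h4
  have c1 : i + j ≤ 0 := by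
    have : ((i + j : ℤ) : ℝ) ≤ 0 := by push_cast; linarith
    exact_mod_cast this
  rcases lt_or_ge (x - i + (y - j)) 1 with h | h
  · have c2 : -13 < i + j := by
      have : (-13 : ℝ) < ((i + j : ℤ) : ℝ) := by push_cast; linarith
      exact_mod_cast this
    refine ⟨i, j, 1, x - i, y - j, Or.inl rfl, ?_, ?_, ?_, by linarith, by linarith, h.le,
      by push_cast; ring, by push_cast; ring⟩ <;> unfold inH <;> omega
  · have c2 : -14 < i + j := by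
      rcases a5 with a5 | a5
      · have : (-14 : ℝ) < ((i + j : ℤ) : ℝ) := by push_cast; linarith
        exact_mod_cast this
      · omega
    refine ⟨i + 1, j + 1, -1, i + 1 - x, j + 1 - y, Or.inr rfl, ?_, ?_, ?_, by linarith,
      by linarith, by linarith, by push_cast; ring, by push_cast; ring⟩ <;> unfold inH <;> omega

theorem tri (x y : ℝ) (h1 : -12 ≤ x) (h2 : x ≤ 12) (h3 : -12 ≤ y) (h4 : y ≤ 12)
    (h5 : -12 ≤ x + y) (h6 : x + y ≤ 12) : Tri x y := by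
  rcases le_total (x + y) 0 with h | h
  · exact tri0 x y h1 h2 h3 h4 h5 h
  · obtain ⟨i, j, e, u, v, he, a1, a2, a3, hu, hv, huv, hx, hy⟩ := tri0 (-x) (-y) (by linarith)
      (by linarith) (by linarith) (by linarith) (by linarith) (by linarith)
    refine ⟨-i, -j, -e, u, v, by omega, ?_, ?_, ?_, hu, hv, huv, by push_cast; linarith,
      by push_cast; linarith⟩ <;> unfold inH at * <;> omega

theorem bary (A B C u v lo up W : ℝ) (hu : 0 ≤ u) (hv : 0 ≤ v) (huv : u + v ≤ 1)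
    (a1 : lo ≤ A) (a2 : A ≤ up) (b1 : lo ≤ B) (b2 : B ≤ up) (c1 : lo ≤ C) (c2 : C ≤ up)
    (hW : W = (1 - u - v) * A + u * B + v * C) : lo ≤ W ∧ W ≤ up := by
  have h0 : 0 ≤ 1 - u - v := by linarith
  constructor
  · nlinarith [mul_nonneg h0 (sub_nonneg.2 a1), mul_nonneg hu (sub_nonneg.2 b1),
      mul_nonneg hv (sub_nonneg.2 c1)]
  · nlinarith [mul_nonneg h0 (sub_nonneg.2 a2), mul_nonneg hu (sub_nonneg.2 b2),
      mul_nonneg hv (sub_nonneg.2 c2)]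

theorem cover (z : ℂ) (hz : z ∈ hex) : ∃ i, z ∈ (T i).g '' par := by
  obtain ⟨h1, h2, h3⟩ := hz
  rw [abs_le] at h1 h2 h3
  obtain ⟨i, j, e, u, v, he, a1, a2, a3, hu, hv, huv, hx, hy⟩ := tri (X z) (Y z)
    (by unfold X; linarith) (by unfold X; linarith) (by unfold Y; linarith)
    (by unfold Y; linarith) (by unfold X Y; linarith) (by unfold X Y; linarith)
  have hi : (i + 12).toNat < 25 := by unfold inH at a1; omega
  have hj : (j + 12).toNat < 25 := by unfold inH at a1; omega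
  have ei : (((i + 12).toNat : ℕ) : ℤ) - 12 = i := by unfold inH at a1; omega
  have ej : (((j + 12).toNat : ℕ) : ℤ) - 12 = j := by unfold inH at a1; omega
  have := c_cov ⟨_, hi⟩ ⟨_, hj⟩ e (by simpa using he)
  simp only [ei, ej] at this
  obtain ⟨t, ht, ⟨p1, p2, p3, p4⟩, ⟨q1, q2, q3, q4⟩, ⟨r1, r2, r3, r4⟩⟩ := this a1 a2 a3
  obtain ⟨k, hk, rfl⟩ := List.mem_iff_getElem.1 ht
  have hk' : k < 72 := hk
  have eT : T ⟨k, hk'⟩ = tl[k] := by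
    simp only [T]
    exact List.getD_eq_getElem _ _ hk
  refine ⟨⟨k, hk'⟩, ?_⟩
  have hok := c_ok ⟨k, hk'⟩
  rw [eT] at hok ⊢
  generalize tl[k] = t at *
  have hS := bary (t.Si i j) (t.Si (i + e) j) (t.Si i (j + e)) u v 0 2 (t.S (X z) (Y z)) hu hv huv
    (by exact_mod_cast p1) (by exact_mod_cast p2) (by exact_mod_cast q1) (by exact_mod_cast q2)
    (by exact_mod_cast r1) (by exact_mod_cast r2)
    (by rw [hx, hy]; simp only [Tl.S, Tl.Si]; push_cast; ring)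
  have hR := bary (t.Ri i j) (t.Ri (i + e) j) (t.Ri i (j + e)) u v 0 3 (t.R (X z) (Y z)) hu hv huv
    (by exact_mod_cast p3) (by exact_mod_cast p4) (by exact_mod_cast q3) (by exact_mod_cast q4)
    (by exact_mod_cast r3) (by exact_mod_cast r4)
    (by rw [hx, hy]; simp only [Tl.R, Tl.Ri]; push_cast; ring)
  exact t.mem hok z hS.1 hS.2 hR.1 hR.2

theorem cX : Continuous X := by unfold X; fun_prop
theorem cY : Continuous Y := by unfold Y; fun_prop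

theorem line (U : Set ℂ) (hU : IsOpen U) (m n c : ℝ) (h0 : 0 < m * m + n * n)
    (h : ∀ z ∈ U, m * X z + n * Y z = c) (z : ℂ) (hz : z ∈ U) : False := by
  have hc : Continuous fun s : ℝ => pt (X z + s * m) (Y z + s * n) := by
    have : (fun s : ℝ => pt (X z + s * m) (Y z + s * n)) = fun s : ℝ =>
        ((√3 * (2 * (X z + s * m) + (Y z + s * n)) / 6 : ℝ) : ℂ) +
          (((Y z + s * n) / 2 : ℝ) : ℂ) * Complex.I := by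
      funext s
      exact Complex.mk_eq_add_mul_I _ _
    rw [this]
    fun_prop
  have ho := hU.preimage hc
  have hm : (0 : ℝ) ∈ (fun s : ℝ => pt (X z + s * m) (Y z + s * n)) ⁻¹' U := by
    simp [pt_XY, hz]
  obtain ⟨ε, hε, hb⟩ := Metric.isOpen_iff.1 ho 0 hm
  have h1 := h _ (hb (show ε / 2 ∈ Metric.ball (0 : ℝ) ε by
    simp only [Metric.mem_ball, dist_zero_right, Real.norm_eq_abs]
    rw [abs_of_pos (by linarith)]; linarith))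
  have h2 := h z hz
  simp only [X_pt, Y_pt] at h1
  nlinarith [mul_pos hε h0]

theorem Tl.eq_set (t : Tl) (h : t.ok) : t.g '' par = {z | 0 ≤ t.S (X z) (Y z) ∧
    t.S (X z) (Y z) ≤ 2 ∧ 0 ≤ t.R (X z) (Y z) ∧ t.R (X z) (Y z) ≤ 3} := by
  have hd : ((t.a : ℝ) * t.d - t.b * t.c) * (t.a * t.d - t.b * t.c) = 1 := by
    exact_mod_cast h.2.2.2
  ext z
  constructor
  · rintro ⟨w, hw, rfl⟩
    have hw' : 0 ≤ X w ∧ X w ≤ 2 ∧ 0 ≤ Y w ∧ Y w ≤ 3 := hw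
    have e1 : t.S (X (t.g w)) (Y (t.g w)) = X w := by
      simp only [Tl.g, X_pt, Y_pt, Tl.S]; linear_combination (X w) * hd
    have e2 : t.R (X (t.g w)) (Y (t.g w)) = Y w := by
      simp only [Tl.g, X_pt, Y_pt, Tl.R]; linear_combination (Y w) * hd
    change 0 ≤ t.S _ _ ∧ t.S _ _ ≤ 2 ∧ 0 ≤ t.R _ _ ∧ t.R _ _ ≤ 3
    rw [e1, e2]
    exact hw'
  · rintro ⟨h1, h2, h3, h4⟩
    exact t.mem h z h1 h2 h3 h4

theorem Tl.cS (t : Tl) : Continuous fun z => t.S (X z) (Y z) := by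
  unfold Tl.S X Y; fun_prop
theorem Tl.cR (t : Tl) : Continuous fun z => t.R (X z) (Y z) := by
  unfold Tl.R X Y; fun_prop

theorem Tl.closed (t : Tl) (h : t.ok) : IsClosed (t.g '' par) := by
  rw [t.eq_set h]
  exact (isClosed_le continuous_const t.cS).inter ((isClosed_le t.cS continuous_const).inter
    ((isClosed_le continuous_const t.cR).inter (isClosed_le t.cR continuous_const)))

theorem Tl.convex (t : Tl) (h : t.ok) : Convex ℝ (t.g '' par) := by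
  rw [t.eq_set h]
  rintro z ⟨z1, z2, z3, z4⟩ w ⟨w1, w2, w3, w4⟩ a b ha hb hab
  have hb' : b = 1 - a := by linarith
  have e1 : t.S (X (a • z + b • w)) (Y (a • z + b • w)) =
      a * t.S (X z) (Y z) + b * t.S (X w) (Y w) := by
    subst hb'
    simp only [Tl.S, X, Y, Complex.add_re, Complex.add_im, Complex.smul_re, Complex.smul_im,
      smul_eq_mul]
    ring
  have e2 : t.R (X (a • z + b • w)) (Y (a • z + b • w)) =
      a * t.R (X z) (Y z) + b * t.R (X w) (Y w) := by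
    subst hb'
    simp only [Tl.R, X, Y, Complex.add_re, Complex.add_im, Complex.smul_re, Complex.smul_im,
      smul_eq_mul]
    ring
  change 0 ≤ t.S _ _ ∧ t.S _ _ ≤ 2 ∧ 0 ≤ t.R _ _ ∧ t.R _ _ ≤ 3
  rw [e1, e2]
  refine ⟨by positivity, ?_, by positivity, ?_⟩
  · nlinarith [mul_nonneg ha (sub_nonneg.2 z2), mul_nonneg hb (sub_nonneg.2 w2)]
  · nlinarith [mul_nonneg ha (sub_nonneg.2 z4), mul_nonneg hb (sub_nonneg.2 w4)]

theorem Tl.int_ne (t : Tl) (h : t.ok) : (interior (t.g '' par)).Nonempty := by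
  have hd : ((t.a : ℝ) * t.d - t.b * t.c) * (t.a * t.d - t.b * t.c) = 1 := by
    exact_mod_cast h.2.2.2
  refine ⟨t.g (pt 1 1), mem_interior.2 ⟨{z | 0 < t.S (X z) (Y z)} ∩ ({z | t.S (X z) (Y z) < 2} ∩
    ({z | 0 < t.R (X z) (Y z)} ∩ {z | t.R (X z) (Y z) < 3})), ?_, ?_, ?_⟩⟩
  · rintro z ⟨h1, h2, h3, h4⟩
    exact t.mem h z (le_of_lt h1) (le_of_lt h2) (le_of_lt h3) (le_of_lt h4)
  · exact (isOpen_lt continuous_const t.cS).inter ((isOpen_lt t.cS continuous_const).inter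
      ((isOpen_lt continuous_const t.cR).inter (isOpen_lt t.cR continuous_const)))
  · have e1 : t.S (X (t.g (pt 1 1))) (Y (t.g (pt 1 1))) = 1 := by
      simp only [Tl.g, X_pt, Y_pt, Tl.S]; linear_combination hd
    have e2 : t.R (X (t.g (pt 1 1))) (Y (t.g (pt 1 1))) = 1 := by
      simp only [Tl.g, X_pt, Y_pt, Tl.R]; linear_combination hd
    change 0 < t.S _ _ ∧ t.S _ _ < 2 ∧ 0 < t.R _ _ ∧ t.R _ _ < 3
    rw [e1, e2]
    norm_num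

theorem par_bdd : Bornology.IsBounded par := by
  refine (Metric.isBounded_closedBall (x := (0 : ℂ)) (r := 3)).subset fun z hz => ?_
  have hz' : 0 ≤ X z ∧ X z ≤ 2 ∧ 0 ≤ Y z ∧ Y z ≤ 3 := hz
  obtain ⟨h1, h2, h3, h4⟩ := hz'
  have h := dist_sq z 0
  have e1 : X 0 = 0 := by simp [X]
  have e2 : Y 0 = 0 := by simp [Y]
  rw [e1, e2] at h
  rw [Metric.mem_closedBall]
  refine abs_le_of_sq_le_sq' ?_ (by norm_num) |>.2
  rw [h]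
  nlinarith [mul_le_mul h2 h4 h3 (by norm_num : (0 : ℝ) ≤ 2)]

theorem Tl.compact (t : Tl) (h : t.ok) : IsCompact (t.g '' par) :=
  Metric.isCompact_of_isClosed_isBounded (t.closed h)
    ((t.iso h).lipschitz.isBounded_image par_bdd)

theorem result : ∃ (n : ℕ) (P : Fin n → Set ℂ), 2 ≤ n ∧ (⋃ i, P i) = hex ∧
    (∀ i j, i ≠ j → Disjoint (interior (P i)) (interior (P j))) ∧
    (∀ i, IsCompact (P i) ∧ Convex ℝ (P i) ∧ closure (interior (P i)) = P i) ∧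
    (∀ i, ∃ g : ℂ → ℂ, Isometry g ∧ P i = g '' par) ∧ ∃ i, (0 : ℂ) ∈ interior (P i) := by
  refine ⟨72, fun i => (T i).g '' par, by norm_num, ?_, ?_,
    fun i => ⟨(T i).compact (c_ok i), (T i).convex (c_ok i), by
      rw [((T i).convex (c_ok i)).closure_interior_eq_closure_of_nonempty_interior
        ((T i).int_ne (c_ok i)), ((T i).closed (c_ok i)).closure_eq]⟩,
    fun i => ⟨_, (T i).iso (c_ok i), rfl⟩, ⟨9, ?_⟩⟩
  · refine Set.Subset.antisymm ?_ fun z hz => Set.mem_iUnion.2 (cover z hz)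
    intro z hz
    obtain ⟨i, hi⟩ := Set.mem_iUnion.1 hz
    have key : ∀ u ∈ dirs, (u.1 : ℝ) * X z + u.2 * Y z ≤ 12 := fun u hu =>
      le_trans ((T i).le_hi u.1 u.2 z hi) (by exact_mod_cast c_in i u hu)
    simp only [dirs, List.forall_mem_cons, X, Y] at key
    obtain ⟨k1, k2, k3, k4, k5, k6, -⟩ := key
    push_cast at k1 k2 k3 k4 k5 k6
    refine ⟨abs_le.2 ⟨?_, ?_⟩, abs_le.2 ⟨?_, ?_⟩, abs_le.2 ⟨?_, ?_⟩⟩ <;> linarith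
  · intro i j hij
    obtain ⟨u, -, h1, h2⟩ := c_sep i j hij
    rw [Set.disjoint_left]
    intro z hi hj
    refine line _ (isOpen_interior.inter isOpen_interior) u.1 u.2 ((T i).hi u.1 u.2)
      (by exact_mod_cast h2) ?_ z ⟨hi, hj⟩
    rintro w ⟨wi, wj⟩
    have e1 := (T i).le_hi u.1 u.2 w (interior_subset wi)
    have e2 := (T j).le_hi (-u.1) (-u.2) w (interior_subset wj)
    have h1' : (((T i).hi u.1 u.2 : ℤ) : ℝ) + ((T j).hi (-u.1) (-u.2) : ℤ) ≤ 0 := by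
      exact_mod_cast h1
    push_cast at e2
    linarith
  · have eT : T 9 = ⟨1, 1, 0, -1, -2, 1⟩ := rfl
    refine mem_interior.2 ⟨{z | -1 < X z + Y z} ∩ {z | X z + Y z < 1} ∩ {z | -2 < Y z} ∩
      {z | Y z < 1}, ?_, ?_, ?_⟩
    · rintro z ⟨⟨⟨h1, h2⟩, h3⟩, h4⟩
      have h1 : -1 < X z + Y z := h1
      have h2 : X z + Y z < 1 := h2
      have h3 : -2 < Y z := h3
      have h4 : Y z < 1 := h4
      refine (T 9).mem (c_ok 9) z ?_ ?_ ?_ ?_ <;> rw [eT] <;> simp only [Tl.S, Tl.R] <;>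
        push_cast <;> linarith
    · exact (((isOpen_lt continuous_const (cX.add cY)).inter
        (isOpen_lt (cX.add cY) continuous_const)).inter (isOpen_lt continuous_const cY)).inter
        (isOpen_lt cY continuous_const)
    · simp [X, Y]

end Pool.Agent.Results.MP_8eede0_co.Hexagon
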